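import Pool.Agent.TH285.Gkl.Det

/-!
Probabilistic part: almost surely there is a block which protects a given site for ever.
-/

set_option autoImplicit false

open MeasureTheory ProbabilityTheory Filter Topology
open scoped ENNReal

namespace Pool.Agent.TH285.Gkl

set_option linter.unusedSectionVars false

variable {Ω : Type*} [mΩ : MeasurableSpace Ω] {P : Measure Ω}

/-- finite patterns of independent signs -/
lemma pattern {ξ : ℕ → ℤ → Ω → Bool}
    (hind : iIndepFun (fun p : ℕ × ℤ => ξ p.1 p.2) P) (S : Finset (ℕ × ℤ)) (f : ℕ × ℤ → Bool) :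
    P {ω | ∀ p ∈ S, ξ p.1 p.2 ω = f p} = ∏ p ∈ S, P {ω | ξ p.1 p.2 ω = f p} := by
  have h := hind.measure_inter_preimage_eq_mul S (sets := fun p => {f p})
    (fun i _ => measurableSet_singleton _)
  have e1 : (⋂ p ∈ S, (ξ p.1 p.2) ⁻¹' {f p}) = {ω | ∀ p ∈ S, ξ p.1 p.2 ω = f p} := by
    ext ω; simp
  rw [← e1, h]
  rfl

/-- the block event -/
def blk (ξ : ℕ → ℤ → Ω → Bool) (c : ℤ) (b n : ℕ) : Set Ω :=
  {ω | ∀ i : ℤ, -2 ≤ i → i ≤ b → ξ n (c + i) ω = true}

/-- the diagonal without noise -/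
def diag (ξ : ℕ → ℤ → Ω → Bool) (c : ℤ) (n t : ℕ) : Set Ω :=
  {ω | ∀ s : ℕ, s ≤ t / 3 → ξ (n + 1 + (t - s - 1)) (c + s) ω = false}

/-- the event that the block at time `n + 1` protects the site for ever -/
def prot (ξ : ℕ → ℤ → Ω → Bool) (c : ℤ) (b n : ℕ) : Set Ω :=
  blk ξ c b n ∩ ⋂ t : ℕ, ⋂ _ : b < t, (diag ξ c n t)ᶜ

/-- in the event, the site is plus for ever -/
lemma prot_true {ξ : ℕ → ℤ → Ω → Bool} {X : ℕ → Ω → ℤ → Bool}
    (hX : ∀ n ω i, X (n + 1) ω i = (soldiers (X n ω) i || ξ n i ω)) {c : ℤ} {b n : ℕ} (hb : 1 ≤ b)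
    {ω : Ω} (h : ω ∈ prot ξ c b n) (t : ℕ) : X (n + 1 + t) ω c = true := by
  have hsh : ∀ (y : ℤ → Bool) (i : ℤ), soldiers (fun j => y (c + j)) i = soldiers y (c + i) := by
    intro y i
    unfold soldiers
    simp only [add_assoc, add_sub_assoc]
  have key := det (x := fun k i => X (n + 1 + k) ω (c + i))
    (ξ := fun k i => ξ (n + 1 + k) (c + i) ω) (by
      intro k i
      show X (n + 1 + (k + 1)) ω (c + i) = _
      rw [← add_assoc, hX, hsh (X (n + 1 + k) ω) i]) hb (by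
      intro i hi hib
      show X (n + 1 + 0) ω (c + i) = true
      rw [add_zero, hX, h.1 i hi hib, Bool.or_true]) (by
      intro t ht
      have h2 := h.2
      simp only [Set.mem_iInter] at h2
      have h3 := h2 t ht
      by_contra hcon
      apply h3
      intro s hs
      by_contra hc
      rw [Bool.not_eq_false] at hc
      exact hcon ⟨s, hs, hc⟩) t
  simpa using key

section
variable {Ω' : Type*} {ζ : ℕ → ℤ → Ω' → Bool}

lemma meas_pat (m : MeasurableSpace Ω') (n : ℕ) (i : ℤ) (v : Bool)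
    (h : MeasurableSpace.comap (ζ n i) inferInstance ≤ m) :
    MeasurableSet {ω | ζ n i ω = v} := by
  apply h
  exact ⟨{v}, measurableSet_singleton _, rfl⟩

lemma meas_blk (m : MeasurableSpace Ω') (c : ℤ) (b n : ℕ)
    (h : ∀ k ≥ n, ∀ i, MeasurableSpace.comap (ζ k i) inferInstance ≤ m) :
    MeasurableSet (blk ζ c b n) := by
  have e : blk ζ c b n = ⋂ i : ℤ, ⋂ _ : -2 ≤ i, ⋂ _ : i ≤ b, {ω | ζ n (c + i) ω = true} := by
    ext ω; simp [blk]
  rw [e]
  exact MeasurableSet.iInter fun i => MeasurableSet.iInter fun _ => MeasurableSet.iInter fun _ =>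
    meas_pat m n _ _ (h n le_rfl _)

lemma meas_diag (m : MeasurableSpace Ω') (c : ℤ) (n t : ℕ)
    (h : ∀ k ≥ n, ∀ i, MeasurableSpace.comap (ζ k i) inferInstance ≤ m) :
    MeasurableSet (diag ζ c n t) := by
  have e : diag ζ c n t = ⋂ s : ℕ, ⋂ _ : s ≤ t / 3,
      {ω | ζ (n + 1 + (t - s - 1)) (c + s) ω = false} := by
    ext ω; simp [diag]
  rw [e]
  exact MeasurableSet.iInter fun i => MeasurableSet.iInter fun _ =>
    meas_pat m _ _ _ (h _ (by omega) _)

lemma meas_prot (m : MeasurableSpace Ω') (c : ℤ) (b n : ℕ)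
    (h : ∀ k ≥ n, ∀ i, MeasurableSpace.comap (ζ k i) inferInstance ≤ m) :
    MeasurableSet (prot ζ c b n) :=
  (meas_blk m c b n h).inter (MeasurableSet.iInter fun t => MeasurableSet.iInter fun _ =>
    (meas_diag m c n t h).compl)

end

/-- the sites of the block -/
def g1 (n : ℕ) (c : ℤ) (k : ℕ) : ℕ × ℤ := (n, c + (k : ℤ) - 2)

/-- the sites of the diagonal -/
def g2 (n : ℕ) (c : ℤ) (t s : ℕ) : ℕ × ℤ := (n + 1 + (t - s - 1), c + (s : ℤ))

lemma g1_inj (n : ℕ) (c : ℤ) : Function.Injective (g1 n c) := by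
  intro a b h
  have := congrArg Prod.snd h
  simp only [g1] at this
  omega

lemma g2_inj (n : ℕ) (c : ℤ) (t : ℕ) : Function.Injective (g2 n c t) := by
  intro a b h
  have := congrArg Prod.snd h
  simp only [g2] at this
  omega

lemma blk_eq (ξ : ℕ → ℤ → Ω → Bool) (c : ℤ) (b n : ℕ) :
    blk ξ c b n = {ω | ∀ p ∈ (Finset.range (b + 3)).image (g1 n c), ξ p.1 p.2 ω = true} := by
  ext ω
  constructor
  · intro h1 p hp
    rw [Finset.mem_image] at hp
    obtain ⟨k, hk, rfl⟩ := hp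
    rw [Finset.mem_range] at hk
    have := h1 ((k : ℤ) - 2) (by omega) (by omega)
    simp only [g1]
    rw [show c + (k : ℤ) - 2 = c + ((k : ℤ) - 2) by ring]
    exact this
  · intro h i hi hib
    have h2 := h (n, c + i) (by
      rw [Finset.mem_image]
      refine ⟨(i + 2).toNat, ?_, ?_⟩
      · rw [Finset.mem_range]; omega
      · simp only [g1, Prod.mk.injEq, true_and]
        rw [Int.toNat_of_nonneg (by omega)]; ring)
    exact h2

lemma diag_eq (ξ : ℕ → ℤ → Ω → Bool) (c : ℤ) (n t : ℕ) :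
    diag ξ c n t =
      {ω | ∀ p ∈ (Finset.range (t / 3 + 1)).image (g2 n c t), ξ p.1 p.2 ω = false} := by
  ext ω
  constructor
  · intro h1 p hp
    rw [Finset.mem_image] at hp
    obtain ⟨k, hk, rfl⟩ := hp
    rw [Finset.mem_range] at hk
    exact h1 k (by omega)
  · intro h s hs
    exact h (g2 n c t s) (Finset.mem_image_of_mem _ (by rw [Finset.mem_range]; omega))

/-- the probability of a block together with a diagonal without noise -/
lemma blk_diag {ξ : ℕ → ℤ → Ω → Bool}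
    (hind : iIndepFun (fun p : ℕ × ℤ => ξ p.1 p.2) P) {d q : ℝ≥0∞}
    (hd : ∀ n i, P {ω | ξ n i ω = true} = d) (hq : ∀ n i, P {ω | ξ n i ω = false} = q)
    (c : ℤ) (b n t : ℕ) :
    P (blk ξ c b n ∩ diag ξ c n t) = d ^ (b + 3) * q ^ (t / 3 + 1) := by
  classical
  set S1 : Finset (ℕ × ℤ) := (Finset.range (b + 3)).image (g1 n c) with hS1
  set S2 : Finset (ℕ × ℤ) := (Finset.range (t / 3 + 1)).image (g2 n c t) with hS2
  have h1n : ∀ p ∈ S1, p.1 = n := by
    intro p hp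
    rw [hS1, Finset.mem_image] at hp
    obtain ⟨k, -, rfl⟩ := hp
    rfl
  have h2n : ∀ p ∈ S2, p.1 ≠ n := by
    intro p hp
    rw [hS2, Finset.mem_image] at hp
    obtain ⟨k, -, rfl⟩ := hp
    simp only [g2]
    omega
  have hdisj : Disjoint S1 S2 := by
    rw [Finset.disjoint_left]
    intro p h1 h2
    exact h2n p h2 (h1n p h1)
  have e : blk ξ c b n ∩ diag ξ c n t =
      {ω | ∀ p ∈ S1 ∪ S2, ξ p.1 p.2 ω = if p.1 = n then true else false} := by
    rw [blk_eq, diag_eq, ← hS1, ← hS2]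
    ext ω
    constructor
    · rintro ⟨h1, h2⟩ p hp
      rcases Finset.mem_union.1 hp with hp | hp
      · rw [if_pos (h1n p hp)]; exact h1 p hp
      · rw [if_neg (h2n p hp)]; exact h2 p hp
    · intro h
      constructor
      · intro p hp
        have := h p (Finset.mem_union_left _ hp)
        rwa [if_pos (h1n p hp)] at this
      · intro p hp
        have := h p (Finset.mem_union_right _ hp)
        rwa [if_neg (h2n p hp)] at this
  rw [e, pattern hind (S1 ∪ S2) (fun p => if p.1 = n then true else false),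
    Finset.prod_union hdisj]
  congr 1
  · rw [Finset.prod_congr rfl (g := fun _ => d) fun p hp => by
      rw [if_pos (h1n p hp)]; exact hd _ _, Finset.prod_const, hS1,
      Finset.card_image_of_injective _ (g1_inj n c), Finset.card_range]
  · rw [Finset.prod_congr rfl (g := fun _ => q) fun p hp => by
      rw [if_neg (h2n p hp)]; exact hq _ _, Finset.prod_const, hS2,
      Finset.card_image_of_injective _ (g2_inj n c t), Finset.card_range]

/-- the probability of a block -/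
lemma blk_prob {ξ : ℕ → ℤ → Ω → Bool}
    (hind : iIndepFun (fun p : ℕ × ℤ => ξ p.1 p.2) P) {d : ℝ≥0∞}
    (hd : ∀ n i, P {ω | ξ n i ω = true} = d) (c : ℤ) (b n : ℕ) :
    P (blk ξ c b n) = d ^ (b + 3) := by
  classical
  rw [blk_eq, pattern hind _ (fun _ => true),
    Finset.prod_congr rfl (g := fun _ => d) fun p _ => hd _ _, Finset.prod_const,
    Finset.card_image_of_injective _ (g1_inj n c), Finset.card_range]

/-- the sum of the probabilities of the diagonals is finite -/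
lemma sum_diag {q : ℝ≥0∞} (hq : q < 1) : ∑' t : ℕ, q ^ (t / 3 + 1) ≠ ∞ := by
  set r : ℝ≥0∞ := q ^ ((1 : ℝ) / 3) with hr
  have hr1 : r < 1 := ENNReal.rpow_lt_one hq (by norm_num)
  have hr3 : r ^ 3 = q := by
    rw [hr, ← ENNReal.rpow_natCast, ← ENNReal.rpow_mul]
    norm_num
  have h1 : ∀ t : ℕ, q ^ (t / 3 + 1) ≤ r ^ t := by
    intro t
    rw [← hr3, ← pow_mul]
    exact pow_le_pow_right_of_le_one' hr1.le (by omega)
  refine ne_top_of_le_ne_top ?_ (ENNReal.tsum_le_tsum h1)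
  rw [ENNReal.tsum_geometric]
  exact ENNReal.inv_ne_top.2 (tsub_pos_of_lt hr1).ne'

/-- the protecting event has probability bounded from below -/
lemma prot_lower {ξ : ℕ → ℤ → Ω → Bool}
    (hind : iIndepFun (fun p : ℕ × ℤ => ξ p.1 p.2) P) {d q : ℝ≥0∞} (hd0 : d ≠ 0) (hd1 : d ≤ 1)
    (hq1 : q < 1) (hd : ∀ n i, P {ω | ξ n i ω = true} = d)
    (hq : ∀ n i, P {ω | ξ n i ω = false} = q) :
    ∃ (b : ℕ) (a : ℝ≥0∞), 1 ≤ b ∧ 0 < a ∧ ∀ c n, a ≤ P (prot ξ c b n) := by
  have h1 := ENNReal.tendsto_sum_nat_add (fun t : ℕ => q ^ (t / 3 + 1)) (sum_diag hq1)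
  have h2 : ∀ᶠ i : ℕ in atTop, ∑' k : ℕ, q ^ ((k + i) / 3 + 1) < 1 / 2 :=
    h1.eventually (gt_mem_nhds (by simp))
  obtain ⟨b0, hb0⟩ := eventually_atTop.1 h2
  set b := max b0 1 with hb
  have h3 : ∑' k : ℕ, q ^ ((k + (b + 1)) / 3 + 1) ≤ 1 / 2 :=
    (hb0 (b + 1) (by have := le_max_left b0 1; omega)).le
  have hdp : d ^ (b + 3) ≠ 0 := pow_ne_zero _ hd0
  have hdt : d ^ (b + 3) ≠ ∞ := ENNReal.pow_ne_top (ne_top_of_le_ne_top ENNReal.one_ne_top hd1)
  refine ⟨b, d ^ (b + 3) / 2, le_max_right _ _, ENNReal.div_pos hdp (by simp), fun c n => ?_⟩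
  have h4 : blk ξ c b n ⊆ prot ξ c b n ∪ ⋃ k : ℕ, (blk ξ c b n ∩ diag ξ c n (k + (b + 1))) := by
    intro ω hω
    by_cases hc : ∃ t, b < t ∧ ω ∈ diag ξ c n t
    · right
      obtain ⟨t, ht, ht2⟩ := hc
      rw [Set.mem_iUnion]
      refine ⟨t - (b + 1), hω, ?_⟩
      rwa [Nat.sub_add_cancel (by omega)]
    · left
      refine ⟨hω, ?_⟩
      simp only [Set.mem_iInter]
      intro t ht hcc
      exact hc ⟨t, ht, hcc⟩
  have h5 : d ^ (b + 3) ≤ P (prot ξ c b n) + d ^ (b + 3) / 2 := by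
    calc d ^ (b + 3) = P (blk ξ c b n) := (blk_prob hind hd c b n).symm
      _ ≤ P (prot ξ c b n) + P (⋃ k : ℕ, (blk ξ c b n ∩ diag ξ c n (k + (b + 1)))) :=
          (measure_mono h4).trans (measure_union_le _ _)
      _ ≤ P (prot ξ c b n) + ∑' k : ℕ, P (blk ξ c b n ∩ diag ξ c n (k + (b + 1))) := by
          gcongr; exact measure_iUnion_le _
      _ = P (prot ξ c b n) + ∑' k : ℕ, d ^ (b + 3) * q ^ ((k + (b + 1)) / 3 + 1) := by
          congr 1
          exact tsum_congr fun k => blk_diag hind hd hq c b n _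
      _ = P (prot ξ c b n) + d ^ (b + 3) * ∑' k : ℕ, q ^ ((k + (b + 1)) / 3 + 1) := by
          rw [ENNReal.tsum_mul_left]
      _ ≤ P (prot ξ c b n) + d ^ (b + 3) * (1 / 2) := by gcongr
      _ = P (prot ξ c b n) + d ^ (b + 3) / 2 := by rw [mul_one_div]
  have h6 : d ^ (b + 3) / 2 + d ^ (b + 3) / 2 = d ^ (b + 3) := ENNReal.add_halves _
  rw [← h6] at h5
  have h7 : d ^ (b + 3) / 2 ≠ ∞ := ENNReal.div_ne_top hdt (by simp)
  rw [h6] at h5
  exact (ENNReal.add_le_add_iff_right h7).1 (by rw [h6]; exact h5)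

/-- infinitely often there is a protecting block -/
def recur (ξ : ℕ → ℤ → Ω → Bool) (c : ℤ) (b : ℕ) : Set Ω :=
  ⋂ k : ℕ, ⋃ n : ℕ, ⋃ _ : k ≤ n, prot ξ c b n

lemma recur_one {ξ : ℕ → ℤ → Ω → Bool} [IsProbabilityMeasure P] (hm : ∀ n i, Measurable (ξ n i))
    (hind : iIndepFun (fun p : ℕ × ℤ => ξ p.1 p.2) P) {c : ℤ} {b : ℕ} {a : ℝ≥0∞} (ha : 0 < a)
    (h : ∀ n, a ≤ P (prot ξ c b n)) : P (recur ξ c b) = 1 := by
  set s : ℕ × ℤ → MeasurableSpace Ω := fun p => MeasurableSpace.comap (ξ p.1 p.2) inferInstance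
    with hs
  have hle : ∀ p, s p ≤ mΩ := fun p => (hm p.1 p.2).comap_le
  have hi : iIndep s P := hind
  set f : Filter (ℕ × ℤ) := comap Prod.fst atTop with hf
  have hbas : f.HasBasis (fun _ : ℕ => True) fun a : ℕ => {p : ℕ × ℤ | a ≤ p.1} :=
    atTop_basis.comap Prod.fst
  have hmeasU : ∀ (m : MeasurableSpace Ω) (k : ℕ),
      (∀ j ≥ k, ∀ i, MeasurableSpace.comap (ξ j i) inferInstance ≤ m) →
      MeasurableSet[m] (recur ξ c b) := by
    intro m k hk
    have e : recur ξ c b = ⋂ l : ℕ, ⋃ n : ℕ, ⋃ _ : max k l ≤ n, prot ξ c b n := by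
      ext ω
      simp only [recur, Set.mem_iInter, Set.mem_iUnion]
      constructor
      · intro h l
        obtain ⟨n, hn, h1⟩ := h (max k l)
        exact ⟨n, hn, h1⟩
      · intro h l
        obtain ⟨n, hn, h1⟩ := h l
        exact ⟨n, (le_max_right _ _).trans hn, h1⟩
    rw [e]
    exact MeasurableSet.iInter fun l => MeasurableSet.iUnion fun n => MeasurableSet.iUnion
      fun hn => meas_prot m c b n fun j hj i => hk j (((le_max_left _ _).trans hn).trans hj) i
  have htail : MeasurableSet[limsup s f] (recur ξ c b) := by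
    rw [hbas.limsup_eq_iInf_iSup]
    simp only [MeasurableSpace.measurableSet_iInf]
    intro k _
    refine hmeasU _ k fun j hj i => ?_
    exact le_iSup₂_of_le (j, i) hj le_rfl
  have h01 := measure_zero_or_one_of_measurableSet_limsup (m0 := mΩ) (s := s) (f := f)
    (p := fun t => ∃ a : ℕ, ∀ x ∈ t, x.1 < a) (ns := fun a : ℕ => {x : ℕ × ℤ | x.1 < a}) hle hi
    (by
      rintro t ⟨a, ha⟩
      refine hbas.mem_iff.2 ⟨a, trivial, fun x hx hxt => ?_⟩
      have := ha x hxt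
      have h3 : a ≤ x.1 := hx
      omega)
    (Monotone.directed_le fun a b hab x hx => lt_of_lt_of_le hx hab) (fun a => ⟨a, fun x hx => hx⟩)
    (fun x => ⟨x.1 + 1, Nat.lt_succ_self _⟩) htail
  rcases h01 with h0 | h1
  · exfalso
    have hU : ∀ k : ℕ, MeasurableSet (⋃ n : ℕ, ⋃ _ : k ≤ n, prot ξ c b n) := fun k =>
      MeasurableSet.iUnion fun n => MeasurableSet.iUnion fun _ =>
        meas_prot mΩ c b n fun j _ i => (hm j i).comap_le
    have hanti : Antitone fun k : ℕ => ⋃ n : ℕ, ⋃ _ : k ≤ n, prot ξ c b n := by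
      intro k l hkl ω hω
      simp only [Set.mem_iUnion] at hω ⊢
      obtain ⟨n, hn, h2⟩ := hω
      exact ⟨n, hkl.trans hn, h2⟩
    have h2 := tendsto_measure_iInter_atTop (μ := P) (fun k => (hU k).nullMeasurableSet) hanti
      ⟨0, measure_ne_top _ _⟩
    have h3 : a ≤ P (recur ξ c b) := ge_of_tendsto' h2 fun k =>
      (h k).trans (measure_mono fun ω hω => by
        simp only [Set.mem_iUnion]
        exact ⟨k, le_rfl, hω⟩)
    rw [h0] at h3
    exact absurd (ha.trans_le h3) (lt_irrefl _)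
  · exact h1

/-- **Noise towards plus.** -/
theorem plus_noise [IsProbabilityMeasure P] {ξ : ℕ → ℤ → Ω → Bool} {X : ℕ → Ω → ℤ → Bool}
    (hm : ∀ n i, Measurable (ξ n i)) (hind : iIndepFun (fun p : ℕ × ℤ => ξ p.1 p.2) P)
    {δ : ℝ} (hδ0 : 0 < δ) (hδ : ∀ n i, P {ω | ξ n i ω = true} = ENNReal.ofReal δ)
    (hX : ∀ n ω i, X (n + 1) ω i = (soldiers (X n ω) i || ξ n i ω)) :
    (∀ᵐ ω ∂P, ∀ i, ∀ᶠ n in atTop, X n ω i = true) ∧
      ∀ i, Tendsto (fun n => P {ω | X n ω i = false}) atTop (𝓝 0) := by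
  have hd1 : ENNReal.ofReal δ ≤ 1 := by rw [← hδ 0 0]; exact prob_le_one
  have hd0 : ENNReal.ofReal δ ≠ 0 := (ENNReal.ofReal_pos.2 hδ0).ne'
  have hq : ∀ n i, P {ω | ξ n i ω = false} = 1 - ENNReal.ofReal δ := by
    intro n i
    have hms : MeasurableSet {ω | ξ n i ω = true} := hm n i (measurableSet_singleton true)
    have e : {ω | ξ n i ω = false} = {ω | ξ n i ω = true}ᶜ := by
      ext ω; simp
    rw [e, prob_compl_eq_one_sub hms, hδ]
  have hq1 : 1 - ENNReal.ofReal δ < 1 := ENNReal.sub_lt_self ENNReal.one_ne_top one_ne_zero hd0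
  obtain ⟨b, a, hb, ha, hlow⟩ := prot_lower hind hd0 hd1 hq1 hδ hq
  have hrec : ∀ c, P (recur ξ c b) = 1 := fun c => recur_one hm hind ha (hlow c)
  have hmr : ∀ c, MeasurableSet (recur ξ c b) := fun c =>
    MeasurableSet.iInter fun k => MeasurableSet.iUnion fun n => MeasurableSet.iUnion fun _ =>
      meas_prot mΩ c b n fun j _ i => (hm j i).comap_le
  constructor
  · have h1 : ∀ᵐ ω ∂P, ∀ c, ω ∈ recur ξ c b := by
      rw [ae_all_iff]
      intro c
      exact (mem_ae_iff_prob_eq_one (hmr c)).2 (hrec c)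
    filter_upwards [h1] with ω hω c
    have h2 := hω c
    simp only [recur, Set.mem_iInter, Set.mem_iUnion] at h2
    obtain ⟨n, -, hn⟩ := h2 0
    filter_upwards [eventually_ge_atTop (n + 1)] with k hk
    obtain ⟨t, rfl⟩ := Nat.exists_eq_add_of_le hk
    exact prot_true hX hb hn t
  · intro c
    have hC : ∀ k : ℕ, MeasurableSet (⋂ n : ℕ, ⋂ _ : n < k, (prot ξ c b n)ᶜ) := fun k =>
      MeasurableSet.iInter fun n => MeasurableSet.iInter fun _ =>
        (meas_prot mΩ c b n fun j _ i => (hm j i).comap_le).compl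
    have hanti : Antitone fun k : ℕ => ⋂ n : ℕ, ⋂ _ : n < k, (prot ξ c b n)ᶜ := by
      intro k l hkl ω hω
      simp only [Set.mem_iInter] at hω ⊢
      exact fun n hn => hω n (hn.trans_le hkl)
    have h2 := tendsto_measure_iInter_atTop (μ := P) (fun k => (hC k).nullMeasurableSet) hanti
      ⟨0, measure_ne_top _ _⟩
    have h3 : P (⋂ k : ℕ, ⋂ n : ℕ, ⋂ _ : n < k, (prot ξ c b n)ᶜ) = 0 := by
      refine measure_mono_null (t := (recur ξ c b)ᶜ) ?_
        ((prob_compl_eq_zero_iff (hmr c)).2 (hrec c))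
      intro ω hω hr
      simp only [Set.mem_iInter] at hω
      simp only [recur, Set.mem_iInter, Set.mem_iUnion] at hr
      obtain ⟨n, -, hn⟩ := hr 0
      exact hω (n + 1) n (Nat.lt_succ_self n) hn
    rw [h3] at h2
    refine tendsto_of_tendsto_of_tendsto_of_le_of_le tendsto_const_nhds h2 (fun _ => zero_le)
      fun k => ?_
    refine measure_mono fun ω hω => ?_
    simp only [Set.mem_iInter]
    intro n hn hp
    obtain ⟨t, rfl⟩ := Nat.exists_eq_add_of_le (Nat.succ_le_of_lt hn)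
    have := prot_true hX hb hp t
    have h4 : X (n + 1 + t) ω c = false := hω
    rw [this] at h4
    exact Bool.noConfusion h4

lemma soldiers_symm (x : ℤ → Bool) (i : ℤ) :
    soldiers (fun j => !x (-j)) i = !(soldiers x (-i)) := by
  unfold soldiers
  have e1 : -(i + 1) = -i - 1 := by ring
  have e2 : -(i + 3) = -i - 3 := by ring
  have e3 : -(i - 1) = -i + 1 := by ring
  have e4 : -(i - 3) = -i + 3 := by ring
  beta_reduce
  rw [e1, e2, e3, e4]
  cases x (-i) <;> cases x (-i - 1) <;> cases x (-i - 3) <;> cases x (-i + 1) <;>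
    cases x (-i + 3) <;> rfl

/-- **Noise towards minus.** -/
theorem minus_noise [IsProbabilityMeasure P] {ξ : ℕ → ℤ → Ω → Bool} {X : ℕ → Ω → ℤ → Bool}
    (hm : ∀ n i, Measurable (ξ n i)) (hind : iIndepFun (fun p : ℕ × ℤ => ξ p.1 p.2) P)
    {δ : ℝ} (hδ0 : 0 < δ) (hδ : ∀ n i, P {ω | ξ n i ω = true} = ENNReal.ofReal δ)
    (hX : ∀ n ω i, X (n + 1) ω i = (soldiers (X n ω) i && !ξ n i ω)) :
    (∀ᵐ ω ∂P, ∀ i, ∀ᶠ n in atTop, X n ω i = false) ∧
      ∀ i, Tendsto (fun n => P {ω | X n ω i = true}) atTop (𝓝 0) := by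
  have hind' : iIndepFun (fun p : ℕ × ℤ => ξ p.1 (-p.2)) P :=
    hind.precomp (g := fun p : ℕ × ℤ => (p.1, -p.2)) (by
      rintro ⟨a, b⟩ ⟨c, d⟩ h
      simpa using h)
  obtain ⟨h1, h2⟩ := plus_noise (P := P) (ξ := fun n i => ξ n (-i))
    (X := fun n ω i => !X n ω (-i)) (fun n i => hm n (-i)) hind' hδ0 (fun n i => hδ n (-i))
    (by
      intro n ω i
      show (!X (n + 1) ω (-i)) = _
      rw [hX, soldiers_symm, Bool.not_and, Bool.not_not])
  constructor
  · filter_upwards [h1] with ω hω i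
    filter_upwards [hω (-i)] with n hn
    simpa using hn
  · intro i
    have := h2 (-i)
    simpa using this

end Pool.Agent.TH285.Gkl
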