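import Mathlib

/-!
Deterministic part: to the right of a block of ones the minus states of the soldiers automaton are
supported from the left in a region which grows at speed one half, whatever happens further right.
-/

set_option autoImplicit false

namespace Pool.Agent.TH285.Gkl

/-- The soldiers map; `true` is the state `1`. -/
def soldiers (x : ℤ → Bool) (i : ℤ) : Bool :=
  (x i && (x (i + 1) || x (i + 3))) || (!x i && x (i - 1) && x (i - 3))

lemma soldiers_false {x : ℤ → Bool} {i : ℤ} (h : soldiers x i = false) :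
    (x i = true ∧ x (i + 1) = false ∧ x (i + 3) = false) ∨
      (x i = false ∧ ¬ (x (i - 1) = true ∧ x (i - 3) = true)) := by
  unfold soldiers at h
  cases h1 : x i <;> cases h2 : x (i + 1) <;> cases h3 : x (i + 3) <;> cases h4 : x (i - 1) <;>
    cases h5 : x (i - 3) <;> simp_all

lemma soldiers_true {x : ℤ → Bool} {i : ℤ} (h0 : x i = true) (h1 : x (i + 1) = true) :
    soldiers x i = true := by
  unfold soldiers; simp [h0, h1]

section
variable {x ξ : ℕ → ℤ → Bool} (hx : ∀ n i, x (n + 1) i = (soldiers (x n) i || ξ n i))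

/-- the region `[1, r]` is good at time `t` -/
def Good (x : ℕ → ℤ → Bool) (t : ℕ) (r : ℤ) : Prop :=
  ∀ i : ℤ, 1 ≤ i → i ≤ r → x t i = false → x t (i - 1) = true ∧ x t (i - 3) = true

/-- the three sites at the left are plus -/
def Base (x : ℕ → ℤ → Bool) (t : ℕ) : Prop :=
  ∀ i : ℤ, -2 ≤ i → i ≤ 0 → x t i = true

include hx

lemma step_good {t : ℕ} {r : ℤ} (hb : Base x t) (hg : Good x t r) {i : ℤ} (hi : -2 ≤ i)
    (hir : i ≤ r ∨ i ≤ 0) (h : x (t + 1) i = false) :
    ξ t i = false ∧ x t i = true ∧ x t (i + 1) = false ∧ x t (i + 3) = false := by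
  rw [hx, Bool.or_eq_false_iff] at h
  refine ⟨h.2, ?_⟩
  rcases soldiers_false h.1 with h1 | ⟨h1, h2⟩
  · exact h1
  · exfalso
    rcases le_or_gt i 0 with h0 | h0
    · rw [hb i hi h0] at h1; exact Bool.noConfusion h1
    · exact h2 (hg i (by omega) (by omega) h1)

lemma good_succ {t : ℕ} {r : ℤ} (hb : Base x t) (hb' : Base x (t + 1)) (hg : Good x t r) :
    Good x (t + 1) r := by
  intro i hi hir h
  obtain ⟨-, h1, h2, h3⟩ := step_good hx hb hg (by omega) (Or.inl hir) h
  constructor
  · by_contra hc
    rw [Bool.not_eq_true] at hc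
    rcases le_or_gt (i - 1) 0 with h0 | h0
    · rw [hb' (i - 1) (by omega) h0] at hc; exact Bool.noConfusion hc
    · obtain ⟨-, -, h5, -⟩ := step_good hx hb hg (by omega) (Or.inl (by omega)) hc
      rw [sub_add_cancel, h1] at h5; exact Bool.noConfusion h5
  · by_contra hc
    rw [Bool.not_eq_true] at hc
    rcases le_or_gt (i - 3) 0 with h0 | h0
    · rw [hb' (i - 3) (by omega) h0] at hc; exact Bool.noConfusion hc
    · obtain ⟨-, -, -, h5⟩ := step_good hx hb hg (by omega) (Or.inl (by omega)) hc
      rw [sub_add_cancel, h1] at h5; exact Bool.noConfusion h5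

lemma good_add_two {t : ℕ} {r : ℤ} (hr : 0 ≤ r) (hb : Base x t) (hb' : Base x (t + 1))
    (hb'' : Base x (t + 2)) (hg : Good x t r) : Good x (t + 2) (r + 1) := by
  have hg1 := good_succ hx hb hb' hg
  have hg2 := good_succ hx hb' hb'' hg1
  intro i hi hir h
  rcases lt_or_eq_of_le hir with h0 | h0
  · exact hg2 i hi (by omega) h
  subst h0
  -- the site `r + 1` at time `t + 2`
  have key : ∀ j : ℤ, (j = r ∨ j = r - 2) → x (t + 2) j = false → False := by
    intro j hj hc
    have hj0 : -2 ≤ j := by rcases hj with rfl | rfl <;> omega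
    obtain ⟨-, e1, e2, e3⟩ := step_good hx hb' hg1 hj0 (by rcases hj with rfl | rfl <;> omega) hc
    have hr1 : x (t + 1) (r + 1) = false := by
      rcases hj with rfl | rfl
      · exact e2
      · have e : r - 2 + 3 = r + 1 := by ring
        rwa [e] at e3
    -- the minus at `r + 1` is not supported at time `t + 1`
    have hns : ¬ (x (t + 1) (r + 1 - 1) = true ∧ x (t + 1) (r + 1 - 3) = true) := by
      intro hs
      have h1 := h
      rw [hx, Bool.or_eq_false_iff] at h1
      rcases soldiers_false h1.1 with h2 | ⟨h2, h3⟩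
      · rw [hr1] at h2; exact Bool.noConfusion h2.1
      · exact h3 hs
    have e4 : r + 1 - 1 = r := by ring
    have e5 : r + 1 - 3 = r - 2 := by ring
    rw [e4, e5] at hns
    rcases hj with rfl | rfl
    · -- case (a)
      have h2 : x (t + 1) (j - 2) = false := by
        by_contra hcc
        rw [Bool.not_eq_false] at hcc
        exact hns ⟨e1, hcc⟩
      have hj1 : 1 ≤ j - 2 := by
        by_contra hcc
        push Not at hcc
        rw [hb' (j - 2) (by omega) (by omega)] at h2
        exact Bool.noConfusion h2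
      obtain ⟨-, f1, f2, f3⟩ := step_good hx hb hg (by omega) (Or.inl (by omega)) h2
      have e6 : j - 2 + 1 = j - 1 := by ring
      have e7 : j - 2 + 3 = j + 1 := by ring
      rw [e6] at f2
      rw [e7] at f3
      have hns2 : ¬ (x t (j + 1 - 1) = true ∧ x t (j + 1 - 3) = true) := by
        intro hs
        have h1 := hr1
        rw [hx, Bool.or_eq_false_iff] at h1
        rcases soldiers_false h1.1 with h3 | ⟨h3, h4⟩
        · rw [f3] at h3; exact Bool.noConfusion h3.1
        · exact h4 hs
      have h3 : x t j = false := by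
        by_contra hcc
        rw [Bool.not_eq_false] at hcc
        apply hns2
        rw [e4, e5]
        exact ⟨hcc, f1⟩
      have h4 := (hg j (by omega) le_rfl h3).1
      rw [f2] at h4
      exact Bool.noConfusion h4
    · -- case (b)
      have h2 : x (t + 1) r = false := by
        by_contra hcc
        rw [Bool.not_eq_false] at hcc
        exact hns ⟨hcc, e1⟩
      have hr2 : 1 ≤ r := by
        by_contra hcc
        push Not at hcc
        rw [hb' r (by omega) (by omega)] at h2
        exact Bool.noConfusion h2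
      have h4 := (hg1 r hr2 le_rfl h2).1
      have e6 : r - 2 + 1 = r - 1 := by ring
      rw [e6] at e2
      rw [e2] at h4
      exact Bool.noConfusion h4
  constructor
  · by_contra hc
    rw [Bool.not_eq_true] at hc
    exact key _ (Or.inl (by ring)) hc
  · by_contra hc
    rw [Bool.not_eq_true] at hc
    exact key _ (Or.inr (by ring)) hc

/-- as long as the origin is plus, so are the two sites at its left -/
lemma base {b : ℤ} (hb0 : 0 ≤ b) (h0 : ∀ i, -2 ≤ i → i ≤ b → x 0 i = true) {T : ℕ}
    (hT : ∀ t < T, x t 0 = true) : ∀ t < T, Base x t := by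
  have key : ∀ t, t < T → x t (-1) = true ∧ x t (-2) = true := by
    intro t
    induction t with
    | zero => intro _; exact ⟨h0 _ (by norm_num) (by omega), h0 _ (by norm_num) (by omega)⟩
    | succ t ih =>
      intro ht
      obtain ⟨h1, h2⟩ := ih (by omega)
      have h3 := hT t (by omega)
      constructor
      · rw [hx, soldiers_true h1 (by norm_num; exact h3), Bool.true_or]
      · rw [hx, soldiers_true h2 (by norm_num; exact h1), Bool.true_or]
  intro t ht i hi hi0
  obtain ⟨h1, h2⟩ := key t ht
  have h3 : i = 0 ∨ i = -1 ∨ i = -2 := by omega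
  rcases h3 with rfl | rfl | rfl
  · exact hT t ht
  · exact h1
  · exact h2

lemma good {b : ℤ} (hb0 : 0 ≤ b) (h0 : ∀ i, -2 ≤ i → i ≤ b → x 0 i = true) {T : ℕ}
    (hT : ∀ t < T, x t 0 = true) : ∀ t < T, Good x t (b + (t / 2 : ℕ)) := by
  have hB := base hx hb0 h0 hT
  have h00 : Good x 0 b := by
    intro i hi hib h
    rw [h0 i (by omega) hib] at h
    exact Bool.noConfusion h
  have key : ∀ k : ℕ, 2 * k < T → Good x (2 * k) (b + k) := by
    intro k
    induction k with
    | zero => intro _; simpa using h00
    | succ k ih =>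
      intro hk
      have h1 := ih (by omega)
      have h2 := good_add_two hx (by positivity) (hB (2 * k) (by omega))
        (hB (2 * k + 1) (by omega)) (hB (2 * k + 2) (by omega)) h1
      have e : b + ((k + 1 : ℕ) : ℤ) = b + k + 1 := by push_cast; ring
      rw [e]
      exact h2
  intro t ht
  obtain ⟨k, hk | hk⟩ := Nat.even_or_odd' t
  · subst hk
    rw [Nat.mul_div_cancel_left _ (by norm_num : 0 < 2)]
    exact key k ht
  · subst hk
    have e : (2 * k + 1) / 2 = k := by omega
    rw [e]
    exact good_succ hx (hB _ (by omega)) (hB _ ht) (key k (by omega))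

/-- a minus state at the origin has a diagonal of minus states without noise behind it -/
lemma chain {b : ℕ} (h0 : ∀ i : ℤ, -2 ≤ i → i ≤ b → x 0 i = true) {T : ℕ}
    (hT : ∀ t < T, x t 0 = true) (hT0 : x T 0 = false) : ∀ s : ℕ, s ≤ T →
      (∀ s' < s, s' ≤ b + (T - s' - 1) / 2) →
      x (T - s) s = false ∧ ∀ s' < s, ξ (T - s' - 1) s' = false := by
  have hB := base hx (by positivity : (0 : ℤ) ≤ b) h0 hT
  have hG := good hx (by positivity : (0 : ℤ) ≤ b) h0 hT
  intro s
  induction s with
  | zero => intro _ _; exact ⟨by simpa using hT0, fun s' h => absurd h (by omega)⟩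
  | succ s ih =>
    intro hs hs2
    obtain ⟨h1, h2⟩ := ih (by omega) fun s' h => hs2 s' (by omega)
    have h3 := hs2 s (by omega)
    have e : T - s = (T - s - 1) + 1 := by omega
    rw [e] at h1
    have h3' : (s : ℤ) ≤ b + (((T - s - 1) / 2 : ℕ) : ℤ) := by exact_mod_cast h3
    obtain ⟨f1, f2, f3, -⟩ := step_good hx (hB (T - s - 1) (by omega)) (hG (T - s - 1) (by omega))
      (by omega) (Or.inl h3') h1
    refine ⟨?_, ?_⟩
    · have e2 : T - (s + 1) = T - s - 1 := by omega
      rw [e2]
      push_cast
      exact f3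
    · intro s' hs'
      rcases Nat.lt_or_ge s' s with h | h
      · exact h2 s' h
      · have : s' = s := by omega
        subst this
        exact f1

/-- **Deterministic part.** -/
theorem det {b : ℕ} (hb : 1 ≤ b) (h0 : ∀ i : ℤ, -2 ≤ i → i ≤ b → x 0 i = true)
    (hn : ∀ t : ℕ, b < t → ∃ s : ℕ, s ≤ t / 3 ∧ ξ (t - s - 1) s = true) : ∀ t, x t 0 = true := by
  by_contra hcon
  push Not at hcon
  have hex : ∃ t, x t 0 ≠ true := hcon
  classical
  set T := Nat.find hex with hTdef
  have hT0 : x T 0 = false := by
    have := Nat.find_spec hex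
    rw [← hTdef] at this
    simpa using this
  have hT : ∀ t < T, x t 0 = true := by
    intro t ht
    have := Nat.find_min hex ht
    simpa using this
  have hTpos : 0 < T := by
    rcases Nat.eq_zero_or_pos T with h | h
    · rw [h, h0 0 (by norm_num) (by positivity)] at hT0
      exact Bool.noConfusion hT0
    · exact h
  rcases Nat.lt_or_ge b T with hbT | hbT
  · obtain ⟨-, h2⟩ := chain hx h0 hT hT0 (T / 3 + 1) (by omega) (by intro s' hs'; omega)
    obtain ⟨s, hs, hs2⟩ := hn T hbT
    rw [h2 s (by omega)] at hs2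
    exact Bool.noConfusion hs2
  · obtain ⟨h1, -⟩ := chain hx h0 hT hT0 T le_rfl (by intro s' hs'; omega)
    rw [Nat.sub_self, h0 T (by omega) (by exact_mod_cast hbT)] at h1
    exact Bool.noConfusion h1

end

end Pool.Agent.TH285.Gkl
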